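import Mathlib

set_option autoImplicit false

open Cardinal Ordinal

universe u

namespace Pool.Agent.Results.MP_344d3d_lc.SdEqPow

/-- `F` shatters `A` when every function from `A` to `2` is the restriction of a member of `F`. -/
def Shatters {K : Type u} (F : Set (K → Bool)) (A : Set K) : Prop :=
  ∀ g : A → Bool, ∃ x ∈ F, ∀ a : A, x a = g a

/-- `F` has finite string dimension when for some `n` it shatters no set with exactly `n`
elements. -/
def FinStringDim {K : Type u} (F : Set (K → Bool)) : Prop :=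
  ∃ n : ℕ, ∀ A : Finset K, A.card = n → ¬ Shatters F (A : Set K)

/-- The sigma-ideal generated by the families of finite string dimension. -/
def SigmaIdeal (K : Type u) : Set (Set (K → Bool)) :=
  {F | ∃ G : ℕ → Set (K → Bool), (∀ i, FinStringDim (G i)) ∧ F ⊆ ⋃ i, G i}

/-- The covering number of `SigmaIdeal K`. -/
noncomputable def covNumber (K : Type u) : Cardinal.{u} :=
  sInf {c | ∃ 𝒜 : Set (Set (K → Bool)), 𝒜 ⊆ SigmaIdeal K ∧ ⋃₀ 𝒜 = Set.univ ∧ #𝒜 = c}

/-- The cardinal sd(aleph_0, aleph_1): the covering number over the index set `ω₁`. -/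
noncomputable def sd : Cardinal.{u} := covNumber (ω_ 1).ToType

/-- An independent family: for finitely many distinct members every pattern of values is
realized at some coordinate. -/
theorem exists_independent (K : Type u) [Infinite K] :
    ∃ x : Set K → K → Bool, ∀ (ι : Type) [Finite ι] (y : ι → Set K), Function.Injective y →
      ∀ p : ι → Bool, ∃ a : K, ∀ i, x (y i) a = p i := by
  classical
  have hcard : #(Finset K × Finset (Finset K)) = #K := by
    simp [Cardinal.mk_finset_of_infinite]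
  obtain ⟨e⟩ := Cardinal.eq.1 hcard
  refine ⟨fun Y a => decide ((e.symm a).1.filter (· ∈ Y) ∈ (e.symm a).2), ?_⟩
  intro ι _ y hy p
  have := Fintype.ofFinite ι
  have hne : ∀ i j : ι, ∃ c : K, i ≠ j → ¬ (c ∈ y i ↔ c ∈ y j) := by
    intro i j
    by_cases hij : i = j
    · exact ⟨Classical.arbitrary K, fun h => absurd hij h⟩
    · have : y i ≠ y j := fun h => hij (hy h)
      by_contra hcon
      push Not at hcon
      apply this
      ext c
      exact (hcon c).2
  choose c hc using hne
  set s : Finset K := Finset.univ.image (fun q : ι × ι => c q.1 q.2) with hs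
  set T : Finset (Finset K) :=
    (Finset.univ.filter (fun i => p i = true)).image (fun i => s.filter (· ∈ y i)) with hT
  refine ⟨e (s, T), fun i => ?_⟩
  simp only [Equiv.symm_apply_apply]
  have key : (s.filter (· ∈ y i) ∈ T) ↔ p i = true := by
    constructor
    · intro h
      rw [hT, Finset.mem_image] at h
      obtain ⟨j, hj, hji⟩ := h
      have hij : j = i := by
        by_contra hne'
        have hcs : c j i ∈ s := by
          rw [hs, Finset.mem_image]
          exact ⟨(j, i), Finset.mem_univ _, rfl⟩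
        have h1 := hc j i hne'
        apply h1
        have h2 := Finset.ext_iff.1 hji (c j i)
        simp only [Finset.mem_filter, hcs, true_and] at h2
        exact h2
      rw [← hij]
      exact (Finset.mem_filter.1 hj).2
    · intro h
      rw [hT, Finset.mem_image]
      exact ⟨i, Finset.mem_filter.2 ⟨Finset.mem_univ _, h⟩, rfl⟩
  by_cases hp : p i = true
  · rw [hp]; exact decide_eq_true (key.2 hp)
  · have hp' : p i = false := by simpa using hp
    rw [hp']
    exact decide_eq_false (fun h => hp (key.1 h))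

/-- A family of finite string dimension contains only finitely many members of an independent
family. -/
theorem finite_of_finStringDim {K : Type u} (x : Set K → K → Bool)
    (hx : ∀ (ι : Type) [Finite ι] (y : ι → Set K), Function.Injective y →
      ∀ p : ι → Bool, ∃ a : K, ∀ i, x (y i) a = p i)
    (F : Set (K → Bool)) (hF : FinStringDim F) : {Y : Set K | x Y ∈ F}.Finite := by
  classical
  by_contra hinf
  obtain ⟨n, hn⟩ := hF
  have hinf' : Infinite {Y : Set K | x Y ∈ F} := Set.infinite_coe_iff.2 hinf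
  let emb : (Fin n → Bool) ↪ {Y : Set K | x Y ∈ F} :=
    ((Fintype.equivFin (Fin n → Bool)).toEmbedding.trans Fin.valEmbedding).trans
      (Infinite.natEmbedding _)
  let y : (Fin n → Bool) → Set K := fun σ => (emb σ).1
  have hyF : ∀ σ, x (y σ) ∈ F := fun σ => (emb σ).2
  have hyinj : Function.Injective y := fun σ τ h => emb.injective (Subtype.ext h)
  choose α hα using fun i : Fin n => hx (Fin n → Bool) y hyinj (fun σ => σ i)
  have hαinj : Function.Injective α := by
    intro i j hij
    by_contra hne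
    have h1 := hα i (fun l => decide (l = i))
    have h2 := hα j (fun l => decide (l = i))
    rw [hij, h2] at h1
    simp [Ne.symm hne] at h1
  refine hn (Finset.univ.image α) ?_ ?_
  · rw [Finset.card_image_of_injective _ hαinj]; simp
  · intro g
    refine ⟨x (y (fun i => g ⟨α i, by simp⟩)), hyF _, ?_⟩
    rintro ⟨a, ha⟩
    have ha' : ∃ i, α i = a := by simpa using ha
    obtain ⟨i, rfl⟩ := ha'
    exact hα i _

/-- Every cover of `2^K` by sets of the sigma-ideal has at least `2^|K|` members. -/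
theorem le_of_cover (K : Type u) [Infinite K] (𝒜 : Set (Set (K → Bool)))
    (h𝒜 : 𝒜 ⊆ SigmaIdeal K) (hcov : ⋃₀ 𝒜 = Set.univ) : 2 ^ #K ≤ #𝒜 := by
  classical
  obtain ⟨x, hx⟩ := exists_independent K
  have hG : ∀ F : 𝒜, ∃ G : ℕ → Set (K → Bool), (∀ i, FinStringDim (G i)) ∧ F.1 ⊆ ⋃ i, G i :=
    fun F => h𝒜 F.2
  choose G hGfin hGsub using hG
  have hpick : ∀ Y : Set K, ∃ q : 𝒜 × ℕ, x Y ∈ G q.1 q.2 := by
    intro Y
    have h1 : x Y ∈ ⋃₀ 𝒜 := by rw [hcov]; trivial
    obtain ⟨F, hF, hxF⟩ := h1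
    have h2 := hGsub ⟨F, hF⟩ hxF
    obtain ⟨i, hi⟩ := Set.mem_iUnion.1 h2
    exact ⟨(⟨F, hF⟩, i), hi⟩
  choose q hq using hpick
  have hfib : ∀ r : 𝒜 × ℕ, (q ⁻¹' {r}).Countable := by
    intro r
    refine Set.Finite.countable ?_
    refine (finite_of_finStringDim x hx (G r.1 r.2) (hGfin r.1 r.2)).subset ?_
    intro Y hY
    have : q Y = r := hY
    rw [← this]
    exact hq Y
  have h1 : #(Set K) ≤ #(𝒜 × ℕ) * ℵ₀ := by
    have e1 : #(Set K) = #(Σ r : 𝒜 × ℕ, {Y : Set K // q Y = r}) :=
      Cardinal.mk_congr (Equiv.sigmaFiberEquiv q).symm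
    rw [e1, Cardinal.mk_sigma]
    calc Cardinal.sum (fun r : 𝒜 × ℕ => #{Y : Set K // q Y = r})
        ≤ Cardinal.sum (fun _ : 𝒜 × ℕ => (ℵ₀ : Cardinal.{u})) := by
          refine Cardinal.sum_le_sum _ _ (fun r => ?_)
          exact Cardinal.le_aleph0_iff_set_countable.2 (hfib r)
      _ = #(𝒜 × ℕ) * ℵ₀ := by simp
  have h2 : (2 : Cardinal.{u}) ^ #K ≤ #𝒜 * ℵ₀ := by
    have : #(𝒜 × ℕ) * ℵ₀ = #𝒜 * ℵ₀ := by
      simp [mul_assoc]
    rw [this, Cardinal.mk_set] at h1
    exact h1
  have h3 : ℵ₀ < (2 : Cardinal.{u}) ^ #K :=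
    lt_of_le_of_lt (Cardinal.aleph0_le_mk K) (Cardinal.cantor _)
  by_contra hlt
  push Not at hlt
  have h4 : #𝒜 * ℵ₀ < 2 ^ #K := Cardinal.mul_lt_of_lt h3.le hlt h3
  exact absurd h2 (not_le.2 h4)

/-- The covering number is `2^|K|` for every infinite index set. -/
theorem covNumber_eq (K : Type u) [Infinite K] : covNumber K = 2 ^ #K := by
  classical
  apply le_antisymm
  · refine csInf_le' ⟨Set.range (fun x : K → Bool => ({x} : Set (K → Bool))), ?_, ?_, ?_⟩
    · rintro _ ⟨x, rfl⟩
      refine ⟨fun _ => {x}, fun _ => ⟨1, ?_⟩, ?_⟩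
      · intro A hA hsh
        obtain ⟨a, rfl⟩ := Finset.card_eq_one.1 hA
        obtain ⟨z, hz, hz'⟩ := hsh (fun _ => !(x a))
        have := hz' ⟨a, by simp⟩
        rw [Set.mem_singleton_iff.1 hz] at this
        simp at this
      · exact Set.subset_iUnion (fun _ : ℕ => ({x} : Set (K → Bool))) 0
    · ext x
      simp
    · rw [Cardinal.mk_range_eq _ (fun a b h => Set.singleton_injective h)]
      simp
  · refine le_csInf ⟨_, Set.range (fun x : K → Bool => ({x} : Set (K → Bool))), ?_, ?_, rfl⟩ ?_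
    · rintro _ ⟨x, rfl⟩
      refine ⟨fun _ => {x}, fun _ => ⟨1, ?_⟩, ?_⟩
      · intro A hA hsh
        obtain ⟨a, rfl⟩ := Finset.card_eq_one.1 hA
        obtain ⟨z, hz, hz'⟩ := hsh (fun _ => !(x a))
        have := hz' ⟨a, by simp⟩
        rw [Set.mem_singleton_iff.1 hz] at this
        simp at this
      · exact Set.subset_iUnion (fun _ : ℕ => ({x} : Set (K → Bool))) 0
    · ext x
      simp
    · rintro c ⟨𝒜, h1, h2, rfl⟩
      exact le_of_cover K 𝒜 h1 h2

/-- In ZFC, sd(aleph_0, aleph_1) equals the cardinal `2 ^ ℵ₁`; in particular the cofinality of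
`2 ^ ℵ₁` is at most sd(aleph_0, aleph_1). -/
theorem result :
    sd.{u} = 2 ^ (ℵ_ 1 : Cardinal.{u}) ∧
      ((2 : Cardinal.{u}) ^ (ℵ_ 1 : Cardinal.{u})).ord.cof ≤ sd.{u} := by
  have hK : #((ω_ 1).ToType : Type u) = ℵ_ 1 := by simp
  have : Infinite ((ω_ 1).ToType : Type u) := by
    rw [Cardinal.infinite_iff, hK]
    exact Cardinal.aleph0_le_aleph 1
  have h : sd.{u} = 2 ^ (ℵ_ 1 : Cardinal.{u}) := by
    unfold sd
    rw [covNumber_eq, hK]
  refine ⟨h, ?_⟩
  rw [h]
  exact Ordinal.cof_ord_le _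

end Pool.Agent.Results.MP_344d3d_lc.SdEqPow
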